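import Pool.Agent.H685R2.Msol.Logic
import Pool.Agent.H685R2.Msol.Grid
import Pool.Agent.H685R2.Msol.Machine

/-!
There is a class of graphs on which clique-width is not bounded by `O(log n)`, although every
monadic second-order problem (over the vocabulary with the edge relation only) has a polynomial
time solution on it. The class can be chosen to consist of square grids, so that the clique-width
is even at least a constant times the square root of the number of vertices.

Idea of the proof. There are only countably many sentences. So, by compactness of the Cantor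
space, from every sequence of graphs one can select a subsequence on which the truth value of every
single sentence is eventually constant. We apply this to the sequence of all square grids. On the
selected grids a fixed sentence is decided by looking at the number `n` of vertices only: for the
finitely many exceptions the answers are stored in the machine, and all other answers are equal.
-/

namespace Pool.Agent.Results.MP_62751d_lc.SparseGrids

open Pool.Agent.H685R2.Msol Filter

/-- counting leading ones up to `B + 1` -/
def countStep (B : ℕ) (q : Fin (B + 2) × Bool) (a : Bool) : Fin (B + 2) × Bool :=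
  if q.2 = true then q
  else if a = true then (⟨min (q.1 + 1) (B + 1), by omega⟩, false)
  else (q.1, true)

theorem count_done (B : ℕ) (l : List Bool) (c : Fin (B + 2)) :
    l.foldl (countStep B) (c, true) = (c, true) := by
  induction l with
  | nil => rfl
  | cons a l ih => rw [List.foldl_cons]; simpa [countStep] using ih

theorem count_ones (B n : ℕ) (l : List Bool) (c : Fin (B + 2)) :
    (List.replicate n true ++ false :: l).foldl (countStep B) (c, false) =
      (⟨min (c + n) (B + 1), by omega⟩, true) := by
  induction n generalizing c with
  | zero =>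
      rw [List.replicate_zero, List.nil_append, List.foldl_cons]
      have : countStep B (c, false) false = (c, true) := by simp [countStep]
      rw [this, count_done]
      ext
      · simp only
        have := c.2
        omega
      · rfl
  | succ n ih =>
      rw [List.replicate_succ, List.cons_append, List.foldl_cons]
      have : countStep B (c, false) true = (⟨min (c + 1) (B + 1), by omega⟩, false) := by
        simp [countStep]
      rw [this, ih]
      ext
      · simp only
        omega
      · rfl

/-- A sentence whose truth value is eventually constant on the grids in question can be decided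
in polynomial time. -/
theorem polyTimeOn_of_eventually {M : Set ℕ} (φ : Sentence) (N : ℕ) (b : Bool)
    (h : ∀ m ∈ M, N ≤ m → (Models (grid m) φ ↔ b = true)) : PolyTimeOn (gridClass M) φ := by
  classical
  set B := N * N with hB
  refine ⟨_, dfa_polyTime (countStep B) (⟨0, by omega⟩, false)
    (fun q => if (q.1 : ℕ) ≤ B then decide (∃ m ∈ M, m * m = q.1 ∧ Models (grid m) φ) else b), ?_⟩
  rintro n G ⟨m, hm, ⟨f⟩⟩
  have hn : m * m = n := by
    have := Nat.card_congr f.toEquiv
    simpa [Nat.card_prod] using this
  rw [encode, count_ones]
  simp only [zero_add]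
  rw [← models_iso f]
  by_cases hnB : n ≤ B
  · have h1 : min n (B + 1) = n := by omega
    rw [h1, if_pos hnB, decide_eq_true_iff]
    constructor
    · rintro ⟨m', -, hmm', h2⟩
      have : m' = m := Nat.mul_self_inj.1 (hmm'.trans hn.symm)
      rwa [this] at h2
    · intro h2
      exact ⟨m, hm, hn, h2⟩
  · have h1 : min n (B + 1) = B + 1 := by omega
    rw [h1, if_neg (by omega), h m hm]
    by_contra hlt
    push Not at hlt
    have : m * m ≤ N * N := Nat.mul_self_le_mul_self hlt.le
    omega

theorem isoClosed_gridClass (M : Set ℕ) : IsoClosed (gridClass M) := by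
  rintro n G H ⟨f⟩ ⟨m, hm, ⟨g⟩⟩
  exact ⟨m, hm, ⟨g.trans f⟩⟩

theorem not_logCliqueWidth {M : Set ℕ} (hM : M.Infinite) (h2 : ∀ m ∈ M, 2 ≤ m) :
    ¬ LogCliqueWidth (gridClass M) := by
  rintro ⟨c, hc⟩
  have hd : (0 : ℝ) < 24 * (|c| + 1) := by positivity
  have ho := (Real.isLittleO_log_id_atTop.bound (c := 1 / (24 * (|c| + 1))) (by positivity))
  have ho' := (tendsto_natCast_atTop_atTop (R := ℝ)).eventually ho
  obtain ⟨N, hN⟩ := eventually_atTop.1 ho'
  obtain ⟨m, hm, hNm⟩ := hM.exists_gt N
  have hm2 := h2 m hm
  have hlog := hN m hNm.le
  -- a copy of the grid on `Fin (m * m)`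
  let e : Fin m × Fin m ≃ Fin (m * m) := finProdFinEquiv
  let f := SimpleGraph.Iso.map e (grid m)
  have h3 := hc (m * m) ((grid m).map e) ⟨m, hm, ⟨f⟩⟩ (by nlinarith)
  rw [← cliqueWidth_iso f] at h3
  have h4 : (m : ℝ) ≤ 6 * cliqueWidth (grid m) := by exact_mod_cast le_cliqueWidth_grid hm2
  have hm0 : (0 : ℝ) < m := by exact_mod_cast (by omega : 0 < m)
  have hm1 : (1 : ℝ) ≤ m := by exact_mod_cast (by omega : 1 ≤ m)
  have hlog0 : 0 ≤ Real.log m := Real.log_nonneg hm1
  rw [Real.norm_of_nonneg hlog0, id, Real.norm_of_nonneg hm0.le] at hlog
  have h5 : Real.log ((m * m : ℕ) : ℝ) = 2 * Real.log m := by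
    push_cast
    rw [Real.log_mul hm0.ne' hm0.ne']
    ring
  rw [h5] at h3
  have h6 : c * (2 * Real.log m) ≤ (|c| + 1) * (2 * Real.log m) := by
    apply mul_le_mul_of_nonneg_right _ (by positivity)
    have := le_abs_self c
    linarith
  have h7 : (24 * (|c| + 1)) * Real.log m ≤ m := by
    have := mul_le_mul_of_nonneg_left hlog hd.le
    have h8 : 24 * (|c| + 1) * (1 / (24 * (|c| + 1)) * (m : ℝ)) = m := by
      field_simp
    linarith
  nlinarith

/-- There is an infinite set `M` of natural numbers such that on the class of all graphs isomorphic
to an `m × m` grid with `m ∈ M` the clique-width is not bounded by `O(log n)` (it is at least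
`m / 6`, where `n = m * m`), and every problem expressible in monadic second-order logic (with
quantification over vertices and sets of vertices) has a polynomial time solution. -/
theorem result : ∃ M : Set ℕ, M.Infinite ∧
    (∀ m ∈ M, 2 ≤ m ∧ m ≤ 6 * cliqueWidth (grid m)) ∧
    IsoClosed (gridClass M) ∧
    ¬ LogCliqueWidth (gridClass M) ∧
    ∀ φ : Sentence, PolyTimeOn (gridClass M) φ := by
  classical
  obtain ⟨a, s, hs, hlim⟩ := CompactSpace.tendsto_subseq
    (X := Sentence → Bool) (fun m φ => decide (Models (grid (m + 2)) φ))
  have hinf : (Set.range fun i => s i + 2).Infinite := by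
    apply Set.infinite_range_of_injective
    intro i j hij
    exact hs.injective (by simpa using hij)
  have h2 : ∀ m ∈ Set.range (fun i => s i + 2), 2 ≤ m := by
    rintro _ ⟨i, rfl⟩
    simp
  refine ⟨Set.range fun i => s i + 2, hinf, fun m hm => ⟨h2 m hm, le_cliqueWidth_grid (h2 m hm)⟩,
    isoClosed_gridClass _, not_logCliqueWidth hinf h2, fun φ => ?_⟩
  rw [tendsto_pi_nhds] at hlim
  have h3 := hlim φ
  rw [nhds_discrete, tendsto_pure] at h3
  obtain ⟨I, hI⟩ := eventually_atTop.1 h3
  refine polyTimeOn_of_eventually φ (s I + 2) (a φ) ?_
  rintro _ ⟨i, rfl⟩ hi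
  have hi' : I ≤ i := by
    by_contra hlt
    push Not at hlt
    have := hs hlt
    simp only at hi
    omega
  have h4 := hI i hi'
  simp only [Function.comp_apply] at h4
  rw [← h4, decide_eq_true_iff]

end Pool.Agent.Results.MP_62751d_lc.SparseGrids
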